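import Pool.Agent.Lib.MP_f2ebd2_mp.Phase

namespace Pool.Agent.Results.MP_f2ebd2_mp.ComplementPhase

open Pool.Agent.Lib.MP_f2ebd2_mp Matrix

/-- A pure state such that every outcome `x` has a uniform rotation with nonzero amplitudes at
`0…0` and `1…1` and with the product of the amplitudes at `x` and at its complement a nonnegative
multiple of their product is uniformly certifiable among all density matrices. -/
theorem result (N : ℕ) (ψ : (Fin N → Fin 2) → ℂ) (hu : star ψ ⬝ᵥ ψ = 1)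
    (h : ∀ x : Fin N → Fin 2, ∃ U ∈ Matrix.unitaryGroup (Fin 2) ℂ, amp U ψ 0 ≠ 0 ∧ amp U ψ 1 ≠ 0 ∧
      ∃ r : ℝ, 0 ≤ r ∧ amp U ψ x * amp U ψ (1 - x) * star (amp U ψ 0 * amp U ψ 1) = r) :
    Certifiable {ρ | IsDensity ρ} ψ :=
  certifiable_of_phase hu h

end Pool.Agent.Results.MP_f2ebd2_mp.ComplementPhase
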