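import Pool.Agent.Lib.MP_f2ebd2_mp.Generic

namespace Pool.Agent.Results.MP_f2ebd2_mp.ConstantOutcomes

open Pool.Agent.Lib.MP_f2ebd2_mp Matrix

/-- A pure state such that, after every uniform rotation `U ⊗ ⋯ ⊗ U`, the amplitude at `0…0` or
the amplitude at `1…1` is nonzero, is uniformly certifiable among all density matrices. -/
theorem result (N : ℕ) (ψ : (Fin N → Fin 2) → ℂ) (hu : star ψ ⬝ᵥ ψ = 1)
    (h : ∀ U ∈ Matrix.unitaryGroup (Fin 2) ℂ,
      ∑ x, (∏ k, U 0 (x k)) * ψ x ≠ 0 ∨ ∑ x, (∏ k, U 1 (x k)) * ψ x ≠ 0) :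
    Certifiable {ρ | IsDensity ρ} ψ :=
  certifiable_of_unitary hu h

end Pool.Agent.Results.MP_f2ebd2_mp.ConstantOutcomes
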