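import Pool.Agent.Lib.MP_f2ebd2_mp.Main

namespace Pool.Agent.Results.MP_f2ebd2_mp.Counterexample

open Pool.Agent.Lib.MP_f2ebd2_mp

/-- There is a six-qubit stabilizer state that is uniformly certifiable among stabilizer states
but not among all density matrices. -/
theorem result : ∃ ψ : (Fin 6 → Fin 2) → ℂ, IsStabilizerState ψ ∧
    Certifiable {ρ | ∃ χ : (Fin 6 → Fin 2) → ℂ, IsStabilizerState χ ∧ ρ = proj χ} ψ ∧
    ¬ Certifiable {ρ | IsDensity ρ} ψ := by
  obtain ⟨ψ, hu, hf⟩ := exists_psi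
  refine ⟨ψ, isStab_of_fixed hu hf, ?_, fun h => ?_⟩
  · rintro ρ ⟨χ, hχ, rfl⟩ hd
    exact unique_stab hu hf hχ hd
  · exact rho_ne hu hf (h _ (rho_density hu hf) (rho_sameData hu hf))

end Pool.Agent.Results.MP_f2ebd2_mp.Counterexample
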