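import Pool.Agent.Lib.MP_f2ebd2_mp.Forest

namespace Pool.Agent.Results.MP_f2ebd2_mp.Forests

open Pool.Agent.Lib.MP_f2ebd2_mp Matrix

/-- The graph state of every forest on `N` qubits (the unit vector fixed by all
`X_v ∏_{k ∼ v} Z_k`) is uniformly certifiable among all density matrices. -/
theorem result (N : ℕ) (G : SimpleGraph (Fin N)) [DecidableRel G.Adj] (hG : G.IsAcyclic)
    (ψ : (Fin N → Fin 2) → ℂ) (hu : star ψ ⬝ᵥ ψ = 1)
    (hψ : ∀ v, pauli (fun k => if k = v then 1 else if G.Adj v k then 3 else 0) *ᵥ ψ = ψ) :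
    Certifiable {ρ | IsDensity ρ} ψ :=
  forest_certifiable hG hu hψ

end Pool.Agent.Results.MP_f2ebd2_mp.Forests
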